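import Mathlib
import Pool.Agent.K7.H61.HGMax

/-!
# Maximality of the associated order in the canonical nonclassical Hopf-Galois structure

`H_λ` acts on `L` as the full commutant `End_{K[G]}(L)` of the Galois group, so the associated order is
`End_{O_K[G]}(O_L)`. When `p` does not divide `|G|` one can average over `G` inside `O_K`, and the trace
form of `End_K(L)` shows that every order of `H_λ` which contains it preserves `O_L`.
The definitions are in `Pool.Agent.K7.H61.HGDefs`.
-/

set_option autoImplicit false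

namespace Pool.Agent.Results.MP_46c6cb_nt.MaximalAssociatedOrder

open Pool.Agent.K7.H61.HG Pool.Agent.K7.H61.HGMax

/-- Let `L/K` be a Galois extension of `p`-adic fields (finite extensions of `ℚ_p`) whose degree is
prime to `p`. Then the associated order `𝔄_λ` of `O_L` in the Hopf algebra `H_λ = L[N]^G`, `N = λ(G)`, of
the canonical nonclassical Hopf-Galois structure is a maximal `O_K`-order in `H_λ`. -/
theorem result (p : ℕ) [Fact p.Prime] (K L : Type*) [Field K] [Field L]
    [Algebra ℚ_[p] K] [FiniteDimensional ℚ_[p] K] [Algebra ℤ_[p] K] [IsScalarTower ℤ_[p] ℚ_[p] K]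
    [Algebra K L] [FiniteDimensional K L] [IsGalois K L] [Algebra ℤ_[p] L] [IsScalarTower ℤ_[p] K L]
    (hp : ¬ p ∣ Module.finrank K L) :
    IsMaximalOrder (ringOfIntegers K p) (H K L) (assocOrder K L p) := by
  classical
  obtain ⟨⟨hfg, hspan⟩, hmax⟩ := main p K L hp
  set R := integralClosure ℤ_[p] K with hR
  have hlift : ∀ a ∈ H K L, ∃ h : Hlam K L, (h : MonoidAlgebra L (N K L)) = a :=
    fun a ha => ⟨⟨a, mem_Hlam_iff_mem_H.2 ha⟩, rfl⟩
  have hmem : ∀ h : Hlam K L, h ∈ assocOrd p K L ↔
      (h : MonoidAlgebra L (N K L)) ∈ assocOrder K L p := by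
    intro h
    constructor
    · intro hh
      exact ⟨mem_Hlam_iff_mem_H.1 h.2, hh⟩
    · intro hh
      exact hh.2
  have hlift' : ∀ a ∈ assocOrder K L p, ∃ h : Hlam K L, h ∈ assocOrd p K L ∧
      (h : MonoidAlgebra L (N K L)) = a := by
    intro a ha
    obtain ⟨h, rfl⟩ := hlift a ha.1
    exact ⟨h, (hmem h).2 ha, rfl⟩
  -- a set order as a subalgebra
  have hsub : ∀ Γ : Set (MonoidAlgebra L (N K L)), IsOrder (ringOfIntegers K p) (H K L) Γ →
      ∃ Γ' : Subalgebra R (Hlam K L), IsOrd K Γ' ∧
        ∀ h : Hlam K L, h ∈ Γ' ↔ (h : MonoidAlgebra L (N K L)) ∈ Γ := by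
    intro Γ hΓ
    obtain ⟨h1, h2, h3, h4, h5, ⟨s, hs1, hs2⟩, h7⟩ := hΓ
    let Γ' : Subalgebra R (Hlam K L) :=
      { carrier := {h | (h : MonoidAlgebra L (N K L)) ∈ Γ}
        mul_mem' := fun {a b} ha hb => h4 _ ha _ hb
        add_mem' := fun {a b} ha hb => h3 _ ha _ hb
        algebraMap_mem' := fun r => by
          have h8 := h5 (r : K) r.2 1 h2
          have h9 : ((algebraMap R (Hlam K L) r : Hlam K L) : MonoidAlgebra L (N K L)) =
              (r : K) • (1 : MonoidAlgebra L (N K L)) := by
            have : (algebraMap R (Hlam K L) r : Hlam K L) = algebraMap K (Hlam K L) (r : K) := rfl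
            rw [this, Subalgebra.coe_algebraMap, Algebra.algebraMap_eq_smul_one]
          change ((algebraMap R (Hlam K L) r : Hlam K L) : MonoidAlgebra L (N K L)) ∈ Γ
          rw [h9]
          exact h8 }
    have hmem' : ∀ h : Hlam K L, h ∈ Γ' ↔ (h : MonoidAlgebra L (N K L)) ∈ Γ := fun h => Iff.rfl
    refine ⟨Γ', ⟨?_, ?_⟩, hmem'⟩
    · -- finitely generated
      have hch : ∀ b : MonoidAlgebra L (N K L), ∃ h : Hlam K L, b ∈ s →
          (h : MonoidAlgebra L (N K L)) = b := by
        intro b
        by_cases hb : b ∈ s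
        · obtain ⟨h, hh⟩ := hlift b (h1 (hs1 hb))
          exact ⟨h, fun _ => hh⟩
        · exact ⟨0, fun h => absurd h hb⟩
      choose f hf using hch
      refine ⟨s.image f, ?_⟩
      apply le_antisymm
      · rw [Submodule.span_le]
        intro x hx
        rw [Finset.coe_image] at hx
        obtain ⟨b, hb, rfl⟩ := hx
        have : (f b : MonoidAlgebra L (N K L)) ∈ Γ := by
          rw [hf b hb]
          exact hs1 hb
        exact this
      · intro x hx
        obtain ⟨c, hc1, hc2⟩ := hs2 _ (show (x : MonoidAlgebra L (N K L)) ∈ Γ from hx)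
        have h8 : x = ∑ b ∈ s, (c b) • f b := by
          apply Subtype.ext
          rw [hc2, AddSubmonoidClass.coe_finsetSum]
          refine Finset.sum_congr rfl fun b hb => ?_
          rw [Subalgebra.coe_smul, hf b hb]
        rw [h8]
        refine Submodule.sum_mem _ fun b hb => ?_
        have h9 : (c b) • f b = (⟨c b, hc1 b⟩ : R) • f b := rfl
        rw [h9]
        refine Submodule.smul_mem _ _ (Submodule.subset_span ?_)
        rw [Finset.coe_image]
        exact ⟨b, hb, rfl⟩
    · -- spanning
      rw [eq_top_iff]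
      intro x _
      have h8 : (x : MonoidAlgebra L (N K L)) ∈ Submodule.span K Γ :=
        h7 (mem_Hlam_iff_mem_H.1 x.2)
      have h9 : Submodule.span K Γ =
          (Submodule.span K (Γ' : Set (Hlam K L))).map (Hlam K L).val.toLinearMap := by
        rw [Submodule.map_span]
        congr 1
        ext y
        constructor
        · intro hy
          obtain ⟨z, rfl⟩ := hlift y (h1 hy)
          exact ⟨z, hy, rfl⟩
        · rintro ⟨z, hz, rfl⟩
          exact hz
      rw [h9] at h8
      obtain ⟨z, hz, hzx⟩ := h8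
      have : z = x := Subtype.ext hzx
      rwa [← this]
  refine ⟨?_, ?_⟩
  · -- the associated order is an order
    refine ⟨fun h hh => hh.1, ?_, ?_, ?_, ?_, ?_, ?_⟩
    · exact (hmem 1).1 (one_mem _)
    · intro a ha b hb
      obtain ⟨a, ha, rfl⟩ := hlift' a ha
      obtain ⟨b, hb, rfl⟩ := hlift' b hb
      exact (hmem (a + b)).1 (add_mem ((hmem a).2 ha) ((hmem b).2 hb))
    · intro a ha b hb
      obtain ⟨a, ha, rfl⟩ := hlift' a ha
      obtain ⟨b, hb, rfl⟩ := hlift' b hb
      exact (hmem (a * b)).1 (mul_mem ((hmem a).2 ha) ((hmem b).2 hb))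
    · intro r hr a ha
      obtain ⟨a, ha, rfl⟩ := hlift' a ha
      exact (hmem ((⟨r, hr⟩ : R) • a)).1 (Subalgebra.smul_mem _ ((hmem a).2 ha) _)
    · obtain ⟨s, hs⟩ := hfg
      refine ⟨s.image Subtype.val, ?_, ?_⟩
      · intro x hx
        rw [Finset.coe_image] at hx
        obtain ⟨y, hy, rfl⟩ := hx
        rw [← hmem]
        have : y ∈ Subalgebra.toSubmodule (assocOrd p K L) := by
          rw [← hs]
          exact Submodule.subset_span hy
        exact this
      · intro a ha
        obtain ⟨a, ha, rfl⟩ := hlift' a ha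
        have h8 : a ∈ Submodule.span R (s : Set (Hlam K L)) := by
          rw [hs]
          exact (hmem a).2 ha
        rw [Submodule.mem_span_finset] at h8
        obtain ⟨f, -, hf⟩ := h8
        have hinv : ∀ b : MonoidAlgebra L (N K L), ∃ c : K, IsIntegral ℤ_[p] c ∧
            ∀ y : Hlam K L, (y : MonoidAlgebra L (N K L)) = b → c = ((f y : R) : K) := by
          intro b
          by_cases hb : ∃ y : Hlam K L, (y : MonoidAlgebra L (N K L)) = b
          · obtain ⟨y, rfl⟩ := hb
            refine ⟨((f y : R) : K), (f y).2, ?_⟩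
            intro z hz
            rw [Subtype.ext hz]
          · exact ⟨0, isIntegral_zero, fun y hy => absurd ⟨y, hy⟩ hb⟩
        choose c hc1 hc2 using hinv
        refine ⟨c, hc1, ?_⟩
        rw [Finset.sum_image (fun x _ y _ h => Subtype.ext h), ← hf,
          AddSubmonoidClass.coe_finsetSum]
        refine Finset.sum_congr rfl fun y _ => ?_
        rw [hc2 _ y rfl]
        rfl
    · intro x hx
      obtain ⟨x, rfl⟩ := hlift x hx
      have h8 : x ∈ Submodule.span K (assocOrd p K L : Set (Hlam K L)) := by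
        rw [hspan]; trivial
      have h9 := Submodule.mem_map_of_mem (f := (Hlam K L).val.toLinearMap) h8
      rw [Submodule.map_span] at h9
      refine Submodule.span_mono ?_ h9
      rintro _ ⟨z, hz, rfl⟩
      exact (hmem z).1 hz
  · -- maximality
    intro Γ hΓ hle
    obtain ⟨Γ', hΓ', hmem'⟩ := hsub Γ hΓ
    have h8 := hmax Γ' hΓ' (fun h hh => (hmem' h).2 (hle ((hmem h).1 hh)))
    refine Set.Subset.antisymm ?_ hle
    intro x hx
    obtain ⟨x, rfl⟩ := hlift x (hΓ.1 hx)
    have h9 : x ∈ Γ' := (hmem' _).2 hx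
    rw [h8, hmem] at h9
    exact h9

end Pool.Agent.Results.MP_46c6cb_nt.MaximalAssociatedOrder
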